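import Pool.Agent.Lib.MP_49fa77_co.H30.Iface

/-!
# LD: the density of the construction
-/

set_option autoImplicit false

namespace FT58.AS.H61

open Real MeasureTheory Set Metric Filter Relation FT58 FT58.AS

theorem ld_st (hST : StS) (hCV : CvS) (hPK : PkS) : LdS := by
  intro n N M ρ p hN hM hρ hp hle hn
  have hp0 : 0 < p := by
    rw [hp]
    have : (0 : ℝ) < N := by exact_mod_cast hN
    positivity
  obtain ⟨Z, hZne, hZc, hZm, hZcov⟩ := hCV N M ρ p hN hM hρ hp hle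
  obtain ⟨hsep, hdet⟩ := hPK p hp0.le
  obtain ⟨z0, hz0⟩ := hZne
  -- an enumeration of `Z` by `Fin n`
  have hcard : Z.card ≤ n := hZc.trans hn
  obtain ⟨c, hcZ, hcs⟩ : ∃ c : Fin n → ℂ, (∀ i, c i ∈ Z) ∧ ∀ z ∈ Z, ∃ i, c i = z := by
    classical
    let e := Z.equivFin
    refine ⟨fun i => if h : (i : ℕ) < Z.card then (e.symm ⟨i, h⟩ : ℂ) else z0, ?_, ?_⟩
    · intro i
      by_cases h : (i : ℕ) < Z.card
      · simp only [h, dif_pos]
        exact (e.symm ⟨i, h⟩).2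
      · simp only [h, dif_neg, not_false_eq_true]
        exact hz0
    · intro z hz
      refine ⟨⟨e ⟨z, hz⟩, lt_of_lt_of_le (e ⟨z, hz⟩).2 hcard⟩, ?_⟩
      have h : ((e ⟨z, hz⟩ : Fin Z.card) : ℕ) < Z.card := (e ⟨z, hz⟩).2
      simp only [h, dif_pos, Fin.eta, Equiv.symm_apply_apply]
  have hdet0 : 0 < √3 / 2 * p ^ 2 + 4 * p + 2 * √3 := by positivity
  have hvol : ENNReal.ofReal (π * ρ ^ 2 + 4 * ρ * p + √3 / 2 * p ^ 2) ≤
      volume (unitDisks c) := by
    refine (hST ρ p hρ hp0).trans (measure_mono ?_)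
    intro z hz
    obtain ⟨y, hy, hzy⟩ := hZcov z hz
    obtain ⟨i, hi⟩ := hcs y hy
    unfold unitDisks
    rw [mem_iUnion]
    refine ⟨i, ?_⟩
    rw [mem_closedBall, dist_eq_norm, hi]
    exact hzy
  have hs : ∀ q : ℤ × ℤ, q ≠ 0 → ∀ i j, 2 ≤ ‖(c i - c j) + lv (la p) (lb p) q‖ := by
    intro q hq i j
    obtain ⟨x, y, hx0, hx1, hy0, hy1, hxy⟩ := hZm (c i) (hcZ i)
    obtain ⟨x', y', hx0', hx1', hy0', hy1', hxy'⟩ := hZm (c j) (hcZ j)
    have e : c i - c j = (p : ℂ) * (((x - x' : ℝ) : ℂ) + ((y - y' : ℝ) : ℂ) * om) := by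
      rw [hxy, hxy']
      push_cast
      ring
    rw [e]
    exact hsep (x - x') (y - y') (abs_le.mpr ⟨by linarith, by linarith⟩)
      (abs_le.mpr ⟨by linarith, by linarith⟩) q hq
  have h1 := lattice_density (c := c) (a := la p) (b := lb p) (by rw [hdet]; exact hdet0.ne') hs
    (A := π * ρ ^ 2 + 4 * ρ * p + √3 / 2 * p ^ 2) (by positivity) hvol
  rw [hdet, abs_of_pos hdet0] at h1
  exact h1.trans (le_iSup (fun c : Fin n → ℂ => transDensity (unitDisks c)) c)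

end FT58.AS.H61
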