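import Pool.Agent.Lib.MP_49fa77_co.H30.Iface

/-!
# ST: the area of the parallel body of a rhombus
-/

set_option autoImplicit false

namespace FT58.AS.H61

open Real MeasureTheory Set Metric Filter Relation FT58 FT58.AS

theorem om_re : om.re = 1 / 2 := rfl

theorem om_im : om.im = √3 / 2 := rfl

theorem norm_le_of_sq {z : ℂ} {r : ℝ} (hr : 0 ≤ r) (h : z.re ^ 2 + z.im ^ 2 ≤ r ^ 2) :
    ‖z‖ ≤ r := by
  rw [Complex.norm_eq_sqrt_sq_add_sq]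
  exact Real.sqrt_le_iff.mpr ⟨hr, h⟩

theorem st_st (hMK : MkS) : StS := by
  intro ρ p hρ hp
  have h3 : √3 ^ 2 = 3 := Real.sq_sqrt (by norm_num)
  have h30 : (0 : ℝ) ≤ √3 := Real.sqrt_nonneg 3
  -- the first side
  have hb1 : (⟨ρ * (√3 / 2), -(ρ / 2)⟩ : ℂ) ∈ closedBall (0 : ℂ) ρ := by
    rw [mem_closedBall, dist_zero_right]
    refine norm_le_of_sq hρ.le ?_
    show (ρ * (√3 / 2)) ^ 2 + (-(ρ / 2)) ^ 2 ≤ ρ ^ 2
    nlinarith [h3]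
  have ht1 : (⟨-(ρ * (√3 / 2)), ρ / 2⟩ : ℂ) ∈ closedBall (0 : ℂ) ρ := by
    rw [mem_closedBall, dist_zero_right]
    refine norm_le_of_sq hρ.le ?_
    show (-(ρ * (√3 / 2))) ^ 2 + (ρ / 2) ^ 2 ≤ ρ ^ 2
    nlinarith [h3]
  have hcr1 : cr ((⟨-(ρ * (√3 / 2)), ρ / 2⟩ : ℂ) - ⟨ρ * (√3 / 2), -(ρ / 2)⟩) ((p : ℂ) * om) =
      -(2 * ρ * p) := by
    unfold cr
    simp only [Complex.sub_re, Complex.sub_im, Complex.re_ofReal_mul, Complex.im_ofReal_mul,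
      om_re, om_im]
    linear_combination (-(ρ * p) / 2) * h3
  obtain ⟨hc1, hv1, hm1⟩ := hMK (closedBall (0 : ℂ) ρ) ((p : ℂ) * om) _ _
    (isCompact_closedBall 0 ρ) (convex_closedBall 0 ρ) hb1 ht1
    (by rw [hcr1]; have := mul_pos (mul_pos two_pos hρ) hp; linarith)
  -- the second side
  have hb2 : (⟨0, -ρ⟩ : ℂ) ∈ Ms (closedBall (0 : ℂ) ρ) ((p : ℂ) * om) := by
    refine ⟨⟨0, -ρ⟩, ?_, 0, le_rfl, zero_le_one, by simp⟩
    rw [mem_closedBall, dist_zero_right]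
    refine norm_le_of_sq hρ.le ?_
    show (0 : ℝ) ^ 2 + (-ρ) ^ 2 ≤ ρ ^ 2
    nlinarith
  have ht2 : ((⟨0, ρ⟩ : ℂ) + (p : ℂ) * om) ∈ Ms (closedBall (0 : ℂ) ρ) ((p : ℂ) * om) := by
    refine ⟨⟨0, ρ⟩, ?_, 1, zero_le_one, le_rfl, by simp⟩
    rw [mem_closedBall, dist_zero_right]
    refine norm_le_of_sq hρ.le ?_
    show (0 : ℝ) ^ 2 + ρ ^ 2 ≤ ρ ^ 2
    nlinarith
  have hcr2 : cr (((⟨0, ρ⟩ : ℂ) + (p : ℂ) * om) - ⟨0, -ρ⟩) (p : ℂ) =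
      -(2 * ρ * p + √3 / 2 * p ^ 2) := by
    unfold cr
    simp only [Complex.sub_re, Complex.sub_im, Complex.add_re, Complex.add_im,
      Complex.re_ofReal_mul, Complex.im_ofReal_mul, om_re, om_im, Complex.ofReal_re,
      Complex.ofReal_im]
    ring
  have hpos2 : 0 < 2 * ρ * p + √3 / 2 * p ^ 2 := by positivity
  obtain ⟨hc2, hv2, hm2⟩ := hMK (Ms (closedBall (0 : ℂ) ρ) ((p : ℂ) * om)) (p : ℂ) _ _
    hc1 hv1 hb2 ht2 (by rw [hcr2]; linarith)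
  rw [hcr1, abs_neg, abs_of_nonneg (by positivity)] at hm1
  rw [hcr2, abs_neg, abs_of_nonneg hpos2.le] at hm2
  have h0 : volume (closedBall (0 : ℂ) ρ) = ENNReal.ofReal (π * ρ ^ 2) := vol_closedBall' ρ hρ.le
  calc ENNReal.ofReal (π * ρ ^ 2 + 4 * ρ * p + √3 / 2 * p ^ 2)
      = ENNReal.ofReal ((π * ρ ^ 2 + 2 * ρ * p) + (2 * ρ * p + √3 / 2 * p ^ 2)) := by
        congr 1; ring
    _ = ENNReal.ofReal (π * ρ ^ 2) + ENNReal.ofReal (2 * ρ * p) +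
          ENNReal.ofReal (2 * ρ * p + √3 / 2 * p ^ 2) := by
        rw [ENNReal.ofReal_add (by positivity) hpos2.le,
          ENNReal.ofReal_add (by positivity) (by positivity)]
    _ ≤ volume (Ms (closedBall (0 : ℂ) ρ) ((p : ℂ) * om)) +
          ENNReal.ofReal (2 * ρ * p + √3 / 2 * p ^ 2) := by
        gcongr
        rw [← h0]
        exact hm1
    _ ≤ volume (Bp ρ p) := hm2

end FT58.AS.H61
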